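import Pool.Agent.Lib.MP_c1a8e2_al.h18.ExcN

/-!
# Two variables, every `n`: a basis in almost all degrees

For `k = 2`, every `n ≥ 3` and all degrees `d` outside a small set `B n` the polynomials `h_{λ'}`,
`λ ∈ P_{2,n-2}`, `|λ| = d`, are a basis of the part of degree `d` of the ring of symmetric
polynomials modulo the ideal generated by `p_{n-1}` and `p_n`.
-/

set_option autoImplicit false

open MvPolynomial

namespace Pool.Agent.Results.MP_c1a8e2_al.EveryN

open Pool.Agent.Lib.MP_c1a8e2_al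

universe u

theorem result : ∃ B : ℕ → Finset ℕ,
    (∀ n d : ℕ, 3 ≤ n → d ∉ B n →
      ∀ (R : Type u) [CommRing R] [Algebra ℚ R] (f : MvPolynomial (Fin 2) R),
      f.IsSymmetric → f.IsHomogeneous d →
      ∃! c : Box 2 (n - 2) → R, (∀ l, l.1 0 + l.1 1 ≠ d → c l = 0) ∧
        ∃ g₁ g₂ : MvPolynomial (Fin 2) R, g₁.IsSymmetric ∧ g₂.IsSymmetric ∧
          f = ∑ l, c l • hConj 2 (n - 2) R l.1 + g₁ * psum (Fin 2) R (n - 1) +
            g₂ * psum (Fin 2) R n) ∧
    (∀ n : ℕ, ∀ d ∈ B n, n ≤ d ∧ 6 * d + 17 < 11 * n ∧ Odd (d + n) ∧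
      ∀ p a t e : ℕ, p.Prime → (e = 0 ∨ e = 1 ∧ p ≠ 2) → d + 2 = n + (t * p ^ a + e) →
        n + e ≤ (t + 1) * p ^ a + 1 →
        (p : ℤ) ∣ ((Polynomial.X ^ 2 + Polynomial.X + 1 : Polynomial ℤ) ^ t).coeff t) ∧
    (∀ c : ℕ, ∃ F : Finset ℕ, F.card ≤ 6 * (c + 1) * (c + 2) ∧ ∀ n, n + c ∈ B n → n ∈ F) ∧
    ∀ n p a t e : ℕ, p.Prime → 5 ≤ p → ¬ 3 ∣ t →
      (n = t * p ^ a + e + 1 ∨ n + e = t * p ^ a + 1) →
      p * ((B n).filter fun d => d + 2 < n + p ^ a).card ≤ 3 * (e ^ 2 / 4) * p ^ a := by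
  classical
  refine ⟨fun n => (Finset.range (2 * n)).filter fun d => 3 ≤ n ∧ (MD (n - 2) d).det = 0,
    ?_, ?_, ?_, ?_⟩
  · intro n d hn hd R _ _ f hf hfd
    have hdet : (MD (n - 2) d).det ≠ 0 := by
      intro h0
      rcases Nat.lt_or_ge d (2 * n) with h1 | h1
      · exact hd (Finset.mem_filter.mpr ⟨Finset.mem_range.mpr h1, hn, h0⟩)
      · exact det_MD_ne (n - 2) d (Or.inr (Or.inr (Or.inl (by omega)))) h0
    obtain ⟨c, ⟨hc0, g, hg, hfg⟩, huniq⟩ := existsUnique_of_det (R := R) (n - 2) d hdet f hf hfd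
    refine ⟨c, ⟨hc0, g 0, g 1, hg 0, hg 1, ?_⟩, ?_⟩
    · rw [Fin.sum_univ_two] at hfg
      conv_lhs => rw [hfg]
      rw [← add_assoc, show n - 2 + 1 + ((0 : Fin 2) : ℕ) = n - 1 by simp; omega,
        show n - 2 + 1 + ((1 : Fin 2) : ℕ) = n by simp; omega]
    · rintro c' ⟨hc'0, g₁, g₂, hg1, hg2, h⟩
      refine huniq c' ⟨hc'0, ![g₁, g₂], ?_, ?_⟩
      · intro i
        fin_cases i
        · exact hg1
        · exact hg2
      · rw [Fin.sum_univ_two, ← add_assoc,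
          show n - 2 + 1 + ((0 : Fin 2) : ℕ) = n - 1 by simp; omega,
          show n - 2 + 1 + ((1 : Fin 2) : ℕ) = n by simp; omega]
        exact h
  · intro n d hd
    obtain ⟨-, hn, h0⟩ := Finset.mem_filter.mp hd
    refine ⟨?_, ?_, ?_, ?_⟩
    · by_contra h
      exact det_MD_ne (n - 2) d (Or.inl (by omega)) h0
    · by_contra h
      rcases Nat.lt_or_ge (2 * (n - 2)) d with h1 | h1
      · exact det_MD_ne (n - 2) d (Or.inr (Or.inr (Or.inl h1))) h0
      · exact det_MD_top (n - 2) d h1 (by omega) h0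
    · rw [← Nat.not_even_iff_odd]
      intro h
      refine det_MD_ne (n - 2) d (Or.inr (Or.inl ?_)) h0
      obtain ⟨r, hr⟩ := h
      exact ⟨r - 1, by omega⟩
    · intro p a t e hp he h1 h2
      by_contra h3
      exact det_MD_ne (n - 2) d
        (Or.inr (Or.inr (Or.inr (Or.inl ⟨p, a, t, e, hp, he, by omega, by omega, h3⟩)))) h0
  · intro c
    obtain ⟨F, hF, hFm⟩ := det_MD_few c
    refine ⟨F, hF, fun n hn => ?_⟩
    obtain ⟨-, hn3, h0⟩ := Finset.mem_filter.mp hn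
    have h1 := hFm (n - 2)
    rw [show n - 2 + (c + 2) = n + c by omega, show n - 2 + 2 = n by omega] at h1
    exact h1 h0
  · intro n p a t e hp hp5 ht hN
    by_cases hn : 3 ≤ n
    · obtain ⟨C, hC, hCd⟩ := det_MD_exc (n - 2) p a t e hp hp5 ht (by omega)
      refine le_trans (Nat.mul_le_mul_left p (Finset.card_le_card ?_)) hC
      intro d hd
      rw [Finset.mem_filter, Finset.mem_filter] at hd
      by_contra hd2
      exact hCd d (by omega) hd2 hd.1.2.2
    · have h1 : (((Finset.range (2 * n)).filter fun d => 3 ≤ n ∧ (MD (n - 2) d).det = 0).filter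
          fun d => d + 2 < n + p ^ a) = ∅ := by
        rw [Finset.eq_empty_iff_forall_notMem]
        intro d hd
        rw [Finset.mem_filter, Finset.mem_filter] at hd
        exact hn hd.1.2.1
      rw [h1, Finset.card_empty, mul_zero]
      exact Nat.zero_le _

end Pool.Agent.Results.MP_c1a8e2_al.EveryN
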