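import Pool.Agent.Lib.MP_c1a8e2_al.h30.Final

/-!
# The conjectured bases `h_{λ'} p_μ` and `h_{λ'}`: a determinant criterion and two families

Notation (all in `Pool/Agent/Lib/MP_c1a8e2_al/h30/{Defs,Statement,Matrix}.lean`): `Q1 k n R` and
`Q2 k n R` are the statements of Q1 and Q2 for the data `k, n, R`, and `MM k m` is the integer
matrix indexed by `P_{k,m} × P_{k,m}` whose entry at `(λ, β)` is the number of `m × k` matrices
of natural numbers with row sums `λ'` and column sums `β`.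
-/

set_option autoImplicit false

namespace Pool.Agent.Results.MP_c1a8e2_al.MixedBases

open Pool.Agent.Lib.MP_c1a8e2_al

universe u

open Classical in
theorem result :
    -- Q1 and Q2 are equivalent for each `(k, n, R)`, and equivalent to `det MM ≠ 0`
    (∀ k n : ℕ, 1 ≤ k → k ≤ n → ∀ (R : Type u) [CommRing R] [Algebra ℚ R] [Nontrivial R],
      (Q1 k n R ↔ (MM k (n - k)).det ≠ 0) ∧ (Q2 k n R ↔ (MM k (n - k)).det ≠ 0)) ∧
    -- the criterion is symmetric under `k ↔ n - k`
    (∀ k m : ℕ, (MM k m).det = (MM m k).det) ∧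
    -- both statements hold for `n = 2k`
    (∀ k : ℕ, 1 ≤ k → ∀ (R : Type u) [CommRing R] [Algebra ℚ R],
      Q1 k (2 * k) R ∧ Q2 k (2 * k) R) ∧
    -- both statements hold for `k = 2` and for `k = n - 2` if `n - 1 = p ^ a`, `p ≠ 3` prime
    (∀ p a : ℕ, p.Prime → p ≠ 3 → 1 ≤ a → ∀ (R : Type u) [CommRing R] [Algebra ℚ R],
      (Q1 2 (p ^ a + 1) R ∧ Q2 2 (p ^ a + 1) R) ∧
      (Q1 (p ^ a - 1) (p ^ a + 1) R ∧ Q2 (p ^ a - 1) (p ^ a + 1) R)) := by
  refine ⟨?_, ?_, ?_, ?_⟩
  · intro k n hk hkn R _ _ _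
    exact ⟨Q1_iff n hk hkn, Q2_iff n hk⟩
  · intro k m
    exact det_symm
  · intro k hk R _ _
    have hN : Nonsing k (2 * k - k) := by
      rw [show 2 * k - k = k by omega]
      exact nonsing_self k
    exact ⟨Q1_of_nonsing _ hk (by omega) hN, Q2_of_nonsing _ hk hN⟩
  · intro p a hp hp3 ha R _ _
    have h2 : 2 ≤ p ^ a := by
      calc 2 ≤ p := hp.two_le
        _ = p ^ 1 := (pow_one p).symm
        _ ≤ p ^ a := Nat.pow_le_pow_right hp.pos ha
    have hN : Nonsing 2 (p ^ a - 1) := nonsing_two p a hp hp3 (by omega)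
    constructor
    · have hN' : Nonsing 2 (p ^ a + 1 - 2) := by
        rwa [show p ^ a + 1 - 2 = p ^ a - 1 by omega]
      exact ⟨Q1_of_nonsing _ (by omega) (by omega) hN', Q2_of_nonsing _ (by omega) hN'⟩
    · have hN' : Nonsing (p ^ a - 1) (p ^ a + 1 - (p ^ a - 1)) := by
        rw [show p ^ a + 1 - (p ^ a - 1) = 2 by omega]
        exact nonsing_symm hN
      exact ⟨Q1_of_nonsing _ (by omega) (by omega) hN', Q2_of_nonsing _ (by omega) hN'⟩

end Pool.Agent.Results.MP_c1a8e2_al.MixedBases
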