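import Pool.Agent.Lib.MP_c1a8e2_al.h18.Three
import Pool.Agent.Lib.MP_c1a8e2_al.h18.Bound
import Pool.Agent.Lib.MP_c1a8e2_al.h18.TwoMinus
import Pool.Agent.Lib.MP_c1a8e2_al.h18.FourTop
import Pool.Agent.Lib.MP_c1a8e2_al.h18.Three3
import Pool.Agent.Lib.MP_c1a8e2_al.h18.GoodMinus

/-!
# The conjectured bases for `k = 2` and `k = n - 2`: more families of `n`

`Q1 k n R` and `Q2 k n R` (`Pool/Agent/Lib/MP_c1a8e2_al/h30/Statement.lean`) are the statements of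
Q1 and Q2 for the data `k, n, R`.
-/

set_option autoImplicit false

namespace Pool.Agent.Results.MP_c1a8e2_al.MorePrimes

open Pool.Agent.Lib.MP_c1a8e2_al

universe u

theorem both (n : ℕ) (hn : 3 ≤ n) (h : Nonsing 2 (n - 2)) (R : Type u) [CommRing R]
    [Algebra ℚ R] : (Q1 2 n R ∧ Q2 2 n R) ∧ (Q1 (n - 2) n R ∧ Q2 (n - 2) n R) := by
  refine ⟨⟨Q1_of_nonsing _ (by omega) (by omega) h, Q2_of_nonsing _ (by omega) h⟩, ?_⟩
  have hN' : Nonsing (n - 2) (n - (n - 2)) := by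
    rw [show n - (n - 2) = 2 by omega]
    exact nonsing_symm h
  exact ⟨Q1_of_nonsing _ (by omega) (by omega) hN', Q2_of_nonsing _ (by omega) hN'⟩

/-- `n - 1 = t * p ^ b` -/
theorem nonsing_three_mul (a t p b : ℕ) (ht2 : 2 ≤ t) (ht : 2 * t + 1 = 3 ^ a ∨ 2 * t = 3 ^ a + 1)
    (hp : p.Prime) (hpt : 3 ^ (t ^ 2 / 4) < p) : Nonsing 2 (t * p ^ b - 1) := by
  have h0 : ∀ i, 0 < i → i < t → (toep i t).det ≠ 0 := by
    intro i _ hit h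
    refine toep_three a i t hit (by omega) ⟨1, by omega⟩ (by rw [h]; exact dvd_zero _)
  have hp3 : p ≠ 3 := by
    have h1 : 3 ^ 1 ≤ 3 ^ (t ^ 2 / 4) := Nat.pow_le_pow_right (by norm_num) (by
      rw [Nat.le_div_iff_mul_le (by norm_num)]
      nlinarith)
    omega
  have h1 := toep_mul p b hp hp3 t fun i hi hit => not_dvd_toep i t p hit.le hpt (h0 i hi hit)
  have hpb : 1 ≤ p ^ b := Nat.one_le_pow _ _ hp.pos
  have h2 : 2 ≤ t * p ^ b := le_trans ht2 (Nat.le_mul_of_pos_right t hpb)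
  refine nonsing_of_odd3 (t * p ^ b - 1) ?_
  intro s hs hs3 hsm
  refine exists_of_tensor (t * p ^ b - 1) s hsm ⟨p, 0, hp, hp3, ?_, ?_, ?_⟩
  · rw [pow_zero]
    exact one_dvd _
  · rw [pow_zero, Nat.div_one, Nat.div_one, show t * p ^ b - 1 + 1 = t * p ^ b by omega]
    exact h1 s (by omega)
  · rw [pow_zero, Nat.div_one, Nat.div_one, show t * p ^ b - 1 + 1 = t * p ^ b by omega,
      Nat.add_sub_cancel]
    exact h1 s (by omega)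

theorem result :
    ∃ S T : Set ℕ,
      (∀ r b : ℕ, r.Prime → 5 ≤ r → r ^ b ∈ S ∧ r ^ b ∈ T ∧ 2 * r ^ b ∈ T) ∧
      (∀ r b : ℕ, r.Prime → r ∉ ({2, 3, 5, 7, 13} : Set ℕ) → 4 * r ^ b ∈ T) ∧
      (∀ r b : ℕ, r.Prime → r ∉ ({2, 3, 5, 7, 13, 19} : Set ℕ) → 5 * r ^ b ∈ S) ∧
      (∀ t ∈ S, ∃ p₀ : ℕ, ∀ p b : ℕ, p.Prime → p₀ ≤ p → t * p ^ b ∈ S) ∧
      (∀ t ∈ T, ∃ p₀ : ℕ, ∀ p b : ℕ, p.Prime → p₀ ≤ p → t * p ^ b ∈ T) ∧
      ∀ n : ℕ, 3 ≤ n →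
        -- `n - 1 = 2 p - 2`
        ((∃ p : ℕ, p.Prime ∧ 5 ≤ p ∧ n + 1 = 2 * p) ∨
        -- `n - 1 = p + 4` or `n - 1 = p - 4`
        (∃ p : ℕ, p.Prime ∧ 7 ≤ p ∧ (n = p + 5 ∨ n + 3 = p)) ∨
        -- `n - 1 = p + 3` or `n - 1 = p - 3`
        (∃ p : ℕ, p.Prime ∧ 5 ≤ p ∧
          (n = p + 4 ∧ p % 9 ≠ 1 ∧ p % 9 ≠ 8 ∨ n + 2 = p ∧ p % 9 ≠ 2 ∧ p % 9 ≠ 7)) ∨
        -- `n - 1 = t p ^ b` with `t = (3 ^ a ± 1) / 2` and a prime `p > 3 ^ (t ^ 2 / 4)`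
        (∃ a t p b : ℕ, 2 ≤ t ∧ (2 * t + 1 = 3 ^ a ∨ 2 * t = 3 ^ a + 1) ∧ p.Prime ∧
          3 ^ (t ^ 2 / 4) < p ∧ n = t * p ^ b + 1) ∨
        -- `n - 1 = t - 1` with `t` in `S`
        n ∈ S ∨
        -- `n - 1 = t + 1` with `t` in `T`
        n - 2 ∈ T) →
        ∀ (R : Type u) [CommRing R] [Algebra ℚ R],
          (Q1 2 n R ∧ Q2 2 n R) ∧ (Q1 (n - 2) n R ∧ Q2 (n - 2) n R) := by
  refine ⟨{t | 1 ≤ t ∧ GoodM t}, {t | 1 ≤ t ∧ GoodT t}, ?_, ?_, ?_, ?_, ?_, ?_⟩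
  · intro r b hr hr5
    have h1 : 1 ≤ r ^ b := Nat.one_le_pow _ _ hr.pos
    exact ⟨⟨h1, goodM_prime_power r b hr hr5⟩, ⟨h1, good_prime_power r b hr hr5⟩,
      ⟨le_trans h1 (Nat.le_mul_of_pos_left _ (by norm_num)), good_two_mul r b hr hr5⟩⟩
  · intro r b hr h
    simp only [Set.mem_insert_iff, Set.mem_singleton_iff, not_or] at h
    obtain ⟨h2, h3, h5, h7, h13⟩ := h
    exact ⟨le_trans (Nat.one_le_pow _ _ hr.pos) (Nat.le_mul_of_pos_left _ (by norm_num)),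
      good_four_mul r b hr h2 h3 h5 h7 h13⟩
  · intro r b hr h
    simp only [Set.mem_insert_iff, Set.mem_singleton_iff, not_or] at h
    obtain ⟨h2, h3, h5, h7, h13, h19⟩ := h
    exact ⟨le_trans (Nat.one_le_pow _ _ hr.pos) (Nat.le_mul_of_pos_left _ (by norm_num)),
      goodM_five_mul r b hr h2 h3 h5 h7 h13 h19⟩
  · intro t ht
    obtain ⟨p₀, h⟩ := goodM_mul t ht.1 ht.2
    refine ⟨p₀, fun p b hp hpp => ⟨?_, h p b hp hpp⟩⟩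
    exact le_trans ht.1 (Nat.le_mul_of_pos_right t (pow_pos hp.pos b))
  · intro t ht
    obtain ⟨p₀, h⟩ := good_mul t ht.2
    refine ⟨p₀, fun p b hp hpp => ⟨?_, h p b hp hpp⟩⟩
    exact le_trans ht.1 (Nat.le_mul_of_pos_right t (pow_pos hp.pos b))
  · intro n hn h R _ _
    refine both n hn ?_ R
    rcases h with ⟨p, hp, hp5, h⟩ | ⟨p, hp, hp7, h⟩ | ⟨p, hp, hp5, h⟩ |
      ⟨a, t, p, b, ht2, ht, hp, hpt, h⟩ | h | h
    · exact nonsing_two_minus (n - 2) p hp hp5 (by omega)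
    · exact nonsing_four (n - 2) p hp hp7 (by omega)
    · refine nonsing_three3 (n - 2) p hp hp5 ?_
      rcases h with ⟨h1, h2, h3⟩ | ⟨h1, h2, h3⟩
      · exact Or.inl ⟨by omega, h2, h3⟩
      · exact Or.inr ⟨by omega, h2, h3⟩
    · have h1 := nonsing_three_mul a t p b ht2 ht hp hpt
      rwa [show t * p ^ b - 1 = n - 2 by omega] at h1
    · exact goodM_nonsing n (by omega) h.2
    · exact good_nonsing (n - 2) h.2

end Pool.Agent.Results.MP_c1a8e2_al.MorePrimes
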