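import Pool.Agent.Lib.MP_c1a8e2_al.h31.Near2
import Pool.Agent.Lib.MP_c1a8e2_al.h30.Final

/-!
# The conjectured bases for `k = 2` and `k = n - 2`

Notation: `Q1 k n R` and `Q2 k n R` (`Pool/Agent/Lib/MP_c1a8e2_al/h30/Statement.lean`) are the
statements of Q1 and Q2 for the data `k, n, R`; `toep i t`
(`Pool/Agent/Lib/MP_c1a8e2_al/h31/Toeplitz.lean`) is the `(t - i) × (t - i)` Toeplitz matrix whose
entry at `(a, b)` is the coefficient of `x ^ (i + a - b)` in `(1 + x + x ^ 2) ^ i`.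
-/

set_option autoImplicit false

namespace Pool.Agent.Results.MP_c1a8e2_al.TwoVariables

open Pool.Agent.Lib.MP_c1a8e2_al

universe u

theorem both (n : ℕ) (hn : 3 ≤ n) (h : Nonsing 2 (n - 2)) (R : Type u) [CommRing R]
    [Algebra ℚ R] : (Q1 2 n R ∧ Q2 2 n R) ∧ (Q1 (n - 2) n R ∧ Q2 (n - 2) n R) := by
  refine ⟨⟨Q1_of_nonsing _ (by omega) (by omega) h, Q2_of_nonsing _ (by omega) h⟩, ?_⟩
  have hN' : Nonsing (n - 2) (n - (n - 2)) := by
    rw [show n - (n - 2) = 2 by omega]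
    exact nonsing_symm h
  exact ⟨Q1_of_nonsing _ (by omega) (by omega) hN', Q2_of_nonsing _ (by omega) hN'⟩

theorem result :
    -- the criterion with the primes dividing `n - 1` (or, with `a = 0`, any prime)
    (∀ n : ℕ, 3 ≤ n →
      (∀ s, Odd s → 3 ≤ s → s < n - 1 → ∃ p a : ℕ, p.Prime ∧ p ≠ 3 ∧ p ^ a ∣ n - 1 ∧
        ¬ (p : ℤ) ∣ (toep (s / p ^ a) ((n - 1) / p ^ a)).det ∧
        ¬ (p : ℤ) ∣ (toep ((s + p ^ a - 1) / p ^ a) ((n - 1) / p ^ a)).det) →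
      ∀ (R : Type u) [CommRing R] [Algebra ℚ R],
        (Q1 2 n R ∧ Q2 2 n R) ∧ (Q1 (n - 2) n R ∧ Q2 (n - 2) n R)) ∧
    -- it applies to all `n - 1 = t * p ^ a` if `p ≠ 3` divides none of the determinants for `t`
    (∀ t p a : ℕ, p.Prime → p ≠ 3 → (∀ i, 0 < i → i < t → ¬ (p : ℤ) ∣ (toep i t).det) →
      (∀ i, i < t * p ^ a → ¬ (p : ℤ) ∣ (toep i (t * p ^ a)).det) ∧
      (2 ≤ t * p ^ a → ∀ (R : Type u) [CommRing R] [Algebra ℚ R],
        (Q1 2 (t * p ^ a + 1) R ∧ Q2 2 (t * p ^ a + 1) R) ∧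
        (Q1 (t * p ^ a - 1) (t * p ^ a + 1) R ∧ Q2 (t * p ^ a - 1) (t * p ^ a + 1) R))) ∧
    -- `n - 1` near a power of a prime `p ≥ 5`
    (∀ n p a : ℕ, 3 ≤ n → p.Prime → 5 ≤ p →
      (n = p ^ a ∨ n = p ^ a + 1 ∨ n = p ^ a + 2 ∨ n + 1 = p ∨ n = p + 3) →
      ∀ (R : Type u) [CommRing R] [Algebra ℚ R],
        (Q1 2 n R ∧ Q2 2 n R) ∧ (Q1 (n - 2) n R ∧ Q2 (n - 2) n R)) := by
  refine ⟨?_, ?_, ?_⟩
  · intro n hn h R _ _
    refine both n hn (nonsing_of_odd3 (n - 2) ?_) R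
    intro s hs hs3 hsm
    refine exists_of_tensor (n - 2) s hsm ?_
    rw [show n - 2 + 1 = n - 1 by omega]
    exact h s hs hs3 (by omega)
  · intro t p a hp hp3 h
    have h0 := toep_mul p a hp hp3 t h
    refine ⟨h0, fun h2 R _ _ => ?_⟩
    have h3 := both (t * p ^ a + 1) (by omega) (nonsing_of_odd3 (t * p ^ a + 1 - 2) ?_) R
    · rwa [show t * p ^ a + 1 - 2 = t * p ^ a - 1 by omega] at h3
    · intro s hs hs3 hsm
      refine exists_of_tensor (t * p ^ a + 1 - 2) s hsm ⟨p, 0, hp, hp3, ?_, ?_, ?_⟩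
      · rw [pow_zero]
        exact one_dvd _
      · rw [pow_zero, Nat.div_one, Nat.div_one,
          show t * p ^ a + 1 - 2 + 1 = t * p ^ a by omega]
        exact h0 s (by omega)
      · rw [pow_zero, Nat.div_one, Nat.div_one,
          show t * p ^ a + 1 - 2 + 1 = t * p ^ a by omega, Nat.add_sub_cancel]
        exact h0 s (by omega)
  · intro n p a hn hp hp5 h R _ _
    exact both n hn (nonsing_near (n - 2) p a hp hp5 (by omega)) R

end Pool.Agent.Results.MP_c1a8e2_al.TwoVariables
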